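import Pool.Agent.helper19.MX.SpecA

/-! Row HLF: the map `x ↦ x ^ 2 + d x`. -/

namespace MX

open Pool.Agent.helper53.AU AN
open scoped Classical Topology

theorem HLF_card {K : Type} [Field K] [Fintype K] [CharP K 2] (d : K) (hd : d ≠ 0) (z : K) :
    ((Finset.univ.filter (fun x : K => x ^ 2 + d * x = z)).card : ℤ) = 1 + ps (z * (d ^ 2)⁻¹) := by
  by_cases h : ∃ x₀ : K, x₀ ^ 2 + d * x₀ = z
  · obtain ⟨x₀, hx₀⟩ := h
    have h1 : Finset.univ.filter (fun x : K => x ^ 2 + d * x = z) = {x₀, x₀ + d} := by
      ext x
      simp only [Finset.mem_filter, Finset.mem_univ, true_and, Finset.mem_insert,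
        Finset.mem_singleton]
      constructor
      · intro hx
        have e : (x - x₀) * (x - x₀ + d) = 0 := by
          have h2 : (2 : K) = 0 := CharTwo.two_eq_zero
          linear_combination hx - hx₀ - (x * x₀ - x₀ ^ 2) * h2
        rcases mul_eq_zero.1 e with e | e
        · left
          exact sub_eq_zero.1 e
        · right
          have h2 : (2 : K) = 0 := CharTwo.two_eq_zero
          linear_combination e - d * h2
      · rintro (rfl | rfl)
        · exact hx₀
        · have h2 : (2 : K) = 0 := CharTwo.two_eq_zero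
          linear_combination hx₀ + (x₀ * d + d ^ 2) * h2
    have h2 : ps (z * (d ^ 2)⁻¹) = 1 := by
      unfold ps
      rw [if_pos]
      refine ⟨x₀ * d⁻¹, ?_⟩
      rw [← hx₀]
      field_simp
    rw [h1, h2, Finset.card_pair]
    · norm_num
    · intro he
      apply hd
      linear_combination -he
  · have h1 : Finset.univ.filter (fun x : K => x ^ 2 + d * x = z) = ∅ := by
      ext x
      simp only [Finset.mem_filter, Finset.mem_univ, true_and, Finset.notMem_empty, iff_false]
      intro hx
      exact h ⟨x, hx⟩
    have h2 : ps (z * (d ^ 2)⁻¹) = -1 := by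
      unfold ps
      rw [if_neg]
      rintro ⟨y, hy⟩
      apply h
      refine ⟨d * y, ?_⟩
      have e : z = (y ^ 2 + y) * d ^ 2 := by
        rw [hy]
        field_simp
      rw [e]; ring
    rw [h1, h2]
    norm_num

theorem HLF (hPS1 : PS1_stmt) : HLF_stmt := by
  intro K _ _ _ d hd G
  rw [← Finset.sum_fiberwise Finset.univ (fun x : K => x ^ 2 + d * x) (fun x => G (x ^ 2 + d * x))]
  apply Finset.sum_congr rfl
  intro z _
  rw [← HLF_card d hd z]
  rw [Finset.sum_congr rfl (fun x hx => by rw [(Finset.mem_filter.1 hx).2]), Finset.sum_const,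
    nsmul_eq_mul, mul_comm]

end MX
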