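import Pool.Agent.helper19.MX.SpecA

/-! Row LCH: characteristic 2. -/

namespace MX

open Pool.Agent.helper53.AU AN
open scoped Classical Topology

theorem LCH_aux : CharP (LS (ZMod 2)) 2 := by
  have h : CharP (LaurentSeries (ZMod 2)) 2 :=
    charP_of_injective_algebraMap (algebraMap (ZMod 2) (LaurentSeries (ZMod 2))).injective 2
  exact h

theorem LCH : LCH_stmt := by
  have := LCH_aux
  exact (Lamf.subtype.charP_iff Lamf.subtype.injective 2).2 LCH_aux

end MX
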