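import Pool.Agent.helper19.MX.SpecA

/-! Row OPN: certificates are stable under perturbation. -/

namespace MX

open Pool.Agent.helper53.AU AN
open scoped Classical Topology

theorem OPN (hOP0 : OP0_stmt) (hOPS : OPS_stmt) (hCNG : CNG_stmt) : OPN_stmt := by
  intro L _ _ _ _ _ hHH θ h b hb
  induction hb with
  | base b v r y hv h1 h0 hy => exact hOP0 L hHH θ b v r y hv h1 h0 hy
  | step h b c d β y hb hd hP hy hc ih =>
    exact hOPS L hHH θ h b c d β y (hCNG L θ h b hb).1 hb hd hP hy hc ih

end MX
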